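import Pool.Agent.Q250.VC.Main

/-!
# VC-dimension of nilprogressions

Q1 is disproved, already for abelian groups (`s = 1`) and rank `4`, and for the group `ℤ` and rank `5`.
-/

set_option autoImplicit false

namespace Pool.Agent.Results.MP_19d06a_co.Unbounded

/-- The left translates `g A` of `A` shatter the finite set `Y`: every `B ⊆ Y` is `(g A) ∩ Y` for some
`g`.  The VC-dimension of the family of the left translates of `A` is the supremum of `|Y|`. -/
def Shatters {G : Type*} [Group G] (A : Set G) (Y : Finset G) : Prop :=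
  ∀ B : Finset G, B ⊆ Y → ∃ g : G, ((fun x => g * x) '' A) ∩ (Y : Set G) = (B : Set G)

/-- The value of a word; the letter `(i, true)` is `a i` and the letter `(i, false)` is `(a i)⁻¹`. -/
def val {G : Type*} [Group G] {k : ℕ} (a : Fin k → G) (w : List (Fin k × Bool)) : G :=
  (w.map fun p => if p.2 then a p.1 else (a p.1)⁻¹).prod

/-- The generalized progression of rank `k`: the values of the words in which, for every `i`, the letters
`a i` and `(a i)⁻¹` together occur at most `N i` times. -/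
def Prog {G : Type*} [Group G] {k : ℕ} (a : Fin k → G) (N : Fin k → ℕ) : Set G :=
  {x | ∃ w : List (Fin k × Bool), (∀ i, (w.map Prod.fst).count i ≤ N i) ∧ val a w = x}

/-- (1) There is no constant `C(k, s)` for all `k, s ≥ 1` as in Q1; (2) for every `k ≥ 4` the
VC-dimension of the translates of rank `k` progressions in abelian groups is unbounded; (3) for every
`k ≥ 5` the VC-dimension of the translates of rank `k` progressions in the group `ℤ` is unbounded. -/
theorem result :
    (¬ ∀ k s : ℕ, 1 ≤ k → 1 ≤ s → ∃ C : ℕ, ∀ (G : Type) [Group G] [Group.IsNilpotent G],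
      Group.nilpotencyClass G ≤ s → ∀ (a : Fin k → G) (N : Fin k → ℕ) (Y : Finset G),
        Shatters (Prog a N) Y → Y.card ≤ C) ∧
    (∀ k : ℕ, 4 ≤ k → ∀ m : ℕ, ∃ (G : Type) (_ : CommGroup G) (a : Fin k → G) (N : Fin k → ℕ)
      (Y : Finset G), Y.card = m ∧ Shatters (Prog a N) Y) ∧
    (∀ k : ℕ, 5 ≤ k → ∀ m : ℕ, ∃ (a : Fin k → Multiplicative ℤ) (N : Fin k → ℕ)
      (Y : Finset (Multiplicative ℤ)), Y.card = m ∧ Shatters (Prog a N) Y) := by
  have h5 : ∀ k : ℕ, 5 ≤ k → ∀ m : ℕ, ∃ (a : Fin k → Multiplicative ℤ) (N : Fin k → ℕ)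
      (Y : Finset (Multiplicative ℤ)), Y.card = m ∧ Shatters (Prog a N) Y := by
    intro k hk m
    obtain ⟨t, rfl⟩ := Nat.exists_eq_add_of_le hk
    exact Pool.Agent.Q250.VC.five t m
  refine ⟨?_, ?_, h5⟩
  · intro h
    obtain ⟨C, hC⟩ := h 5 1 (by norm_num) le_rfl
    obtain ⟨a, N, Y, hY, hs⟩ := h5 5 le_rfl (C + 1)
    have := hC (Multiplicative ℤ) CommGroup.nilpotencyClass_le_one a N Y hs
    omega
  · intro k hk m
    obtain ⟨t, rfl⟩ := Nat.exists_eq_add_of_le hk
    obtain ⟨D, _, a, N, Y, hY, hs⟩ := Pool.Agent.Q250.VC.four t m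
    exact ⟨Multiplicative (ℤ × ℤ × ZMod D), inferInstance, a, N, Y, hY, hs⟩

end Pool.Agent.Results.MP_19d06a_co.Unbounded
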